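import Mathlib

/-!
# Multiplicities of zeros of `ζ`: symmetries
-/

open Complex Set Filter Topology Metric ComplexConjugate

namespace H53.MT

lemma analyticAt_conj {g : ℂ → ℂ} {a : ℂ} (hg : AnalyticAt ℂ g a) :
    AnalyticAt ℂ (fun z => conj (g (conj z))) (conj a) := by
  rw [Complex.analyticAt_iff_eventually_differentiableAt] at hg ⊢
  have h1 : Tendsto (fun z : ℂ => conj z) (𝓝 (conj a)) (𝓝 a) := by
    have := (Complex.continuous_conj.tendsto (conj a))
    simpa using this
  filter_upwards [h1.eventually hg] with z hz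
  exact differentiableAt_conj_conj_iff.mpr hz

lemma order_conj {f : ℂ → ℂ} {a : ℂ} (hf : AnalyticAt ℂ f a) :
    analyticOrderAt (fun z => conj (f (conj z))) (conj a) = analyticOrderAt f a := by
  have h1 : Tendsto (fun z : ℂ => conj z) (𝓝 (conj a)) (𝓝 a) := by
    have := (Complex.continuous_conj.tendsto (conj a))
    simpa using this
  by_cases htop : analyticOrderAt f a = ⊤
  · rw [htop]
    rw [analyticOrderAt_eq_top] at htop ⊢
    filter_upwards [h1.eventually htop] with z hz
    rw [hz, map_zero]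
  · obtain ⟨g, hg, hga, he⟩ := hf.analyticOrderAt_ne_top.mp htop
    rw [← Nat.cast_analyticOrderNatAt htop]
    refine (analyticAt_conj hf).analyticOrderAt_eq_natCast.mpr
      ⟨fun z => conj (g (conj z)), analyticAt_conj hg, by simpa using hga, ?_⟩
    filter_upwards [h1.eventually he] with z hz
    rw [hz]
    simp

lemma analyticAt_refl {g : ℂ → ℂ} {a : ℂ} (c : ℂ) (hg : AnalyticAt ℂ g a) :
    AnalyticAt ℂ (fun z => g (c - z)) (c - a) := by
  have h2 : AnalyticAt ℂ (fun z : ℂ => c - z) (c - a) := by fun_prop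
  exact AnalyticAt.comp_of_eq hg h2 (by ring)

lemma order_refl {f : ℂ → ℂ} {a : ℂ} (c : ℂ) (hf : AnalyticAt ℂ f a) :
    analyticOrderAt (fun z => f (c - z)) (c - a) = analyticOrderAt f a := by
  have h1 : Tendsto (fun z : ℂ => c - z) (𝓝 (c - a)) (𝓝 a) := by
    have : Continuous (fun z : ℂ => c - z) := by fun_prop
    have := this.tendsto (c - a)
    simpa using this
  by_cases htop : analyticOrderAt f a = ⊤
  · rw [htop]
    rw [analyticOrderAt_eq_top] at htop ⊢
    filter_upwards [h1.eventually htop] with z hz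
    rw [hz]
  · obtain ⟨g, hg, hga, he⟩ := hf.analyticOrderAt_ne_top.mp htop
    rw [← Nat.cast_analyticOrderNatAt htop]
    set n := analyticOrderNatAt f a
    refine (analyticAt_refl c hf).analyticOrderAt_eq_natCast.mpr
      ⟨fun z => (-1) ^ n * g (c - z), ?_, ?_, ?_⟩
    · exact analyticAt_const.mul (analyticAt_refl c hg)
    · simpa using hga
    · filter_upwards [h1.eventually he] with z hz
      rw [hz]
      simp only [smul_eq_mul]
      rw [← mul_assoc, ← mul_pow]
      congr 2
      ring

/-- product with a nonvanishing factor -/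
lemma order_mul_ne_zero {f g h : ℂ → ℂ} {a : ℂ} (hf : AnalyticAt ℂ f a) (hg : AnalyticAt ℂ g a)
    (hga : g a ≠ 0) (he : h =ᶠ[𝓝 a] fun z => g z * f z) :
    analyticOrderAt h a = analyticOrderAt f a := by
  rw [analyticOrderAt_congr he]
  have h1 := analyticOrderAt_smul hg hf
  rw [hg.analyticOrderAt_eq_zero.mpr hga, zero_add] at h1
  exact h1

lemma analyticAt_zeta {s : ℂ} (hs : s ≠ 1) : AnalyticAt ℂ riemannZeta s :=
  analyticOn_riemannZeta s hs

lemma order_zeta1 {s : ℂ} (hs : s ≠ 1) :
    analyticOrderAt riemannZeta₁ s = analyticOrderAt riemannZeta s := by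
  refine order_mul_ne_zero (g := fun z => z - 1) (analyticAt_zeta hs) (by fun_prop)
    (sub_ne_zero.mpr hs) ?_
  filter_upwards [isOpen_ne.mem_nhds hs] with z hz
  rw [riemannZeta_eq_inv_sub_mul hz, mul_inv_cancel_left₀ (sub_ne_zero.mpr hz)]

lemma orderNat_zeta1 {s : ℂ} (hs : s ≠ 1) :
    analyticOrderNatAt riemannZeta₁ s = analyticOrderNatAt riemannZeta s := by
  unfold analyticOrderNatAt; rw [order_zeta1 hs]

lemma zeta1_two_ne : riemannZeta₁ 2 ≠ 0 := by
  have h2 : riemannZeta 2 ≠ 0 := riemannZeta_ne_zero_of_one_lt_re (by norm_num)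
  intro h
  apply h2
  rw [riemannZeta_eq_inv_sub_mul (by norm_num), h, mul_zero]

lemma order_zeta_ne_top {s : ℂ} (hs : s ≠ 1) : analyticOrderAt riemannZeta s ≠ ⊤ := by
  rw [← order_zeta1 hs]
  have ha : AnalyticOnNhd ℂ riemannZeta₁ univ :=
    differentiable_riemannZeta₁.differentiableOn.analyticOnNhd isOpen_univ
  intro h
  rw [analyticOrderAt_eq_top] at h
  have := ha.eqOn_zero_of_preconnected_of_eventuallyEq_zero isPreconnected_univ (mem_univ s) h
  exact zeta1_two_ne (this (mem_univ 2))

lemma order_completed {s : ℂ} (hs : 0 < s.re) (hs1 : s ≠ 1) :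
    analyticOrderAt completedRiemannZeta s = analyticOrderAt riemannZeta s := by
  have hG : AnalyticAt ℂ Gammaℝ s := by
    rw [Complex.analyticAt_iff_eventually_differentiableAt]
    have hU : IsOpen {s : ℂ | 0 < s.re} := isOpen_lt continuous_const Complex.continuous_re
    filter_upwards [hU.mem_nhds hs] with z hz
    unfold Gammaℝ
    have hz2 : ∀ m : ℕ, z / 2 ≠ -m := by
      intro m hm
      have := congrArg Complex.re hm
      simp at this
      have h3 : 0 < z.re := hz
      have h4 : (0 : ℝ) ≤ m := Nat.cast_nonneg m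
      linarith
    have hpi : (Real.pi : ℂ) ≠ 0 := by exact_mod_cast Real.pi_ne_zero
    apply DifferentiableAt.mul
    · exact DifferentiableAt.const_cpow (by fun_prop) (Or.inl hpi)
    · exact (Complex.differentiableAt_Gamma _ hz2).comp z (by fun_prop)
  refine order_mul_ne_zero (g := Gammaℝ) (analyticAt_zeta hs1) hG
    (Gammaℝ_ne_zero_of_re_pos hs) ?_
  have hU : IsOpen {s : ℂ | 0 < s.re} := isOpen_lt continuous_const Complex.continuous_re
  filter_upwards [hU.mem_nhds hs] with z hz
  have hz0 : z ≠ 0 := by rintro rfl; simp at hz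
  rw [riemannZeta_def_of_ne_zero hz0, mul_div_cancel₀]
  exact Gammaℝ_ne_zero_of_re_pos hz

lemma analyticAt_completed {s : ℂ} (hs0 : s ≠ 0) (hs1 : s ≠ 1) :
    AnalyticAt ℂ completedRiemannZeta s := by
  rw [Complex.analyticAt_iff_eventually_differentiableAt]
  filter_upwards [isOpen_ne.mem_nhds hs0, isOpen_ne.mem_nhds hs1] with z h0 h1
  exact differentiableAt_completedZeta h0 h1

/-- `mult(1 - ρ) = mult ρ`. -/
theorem order_one_sub {s : ℂ} (h0 : 0 < s.re) (h1 : s.re < 1) :
    analyticOrderAt riemannZeta (1 - s) = analyticOrderAt riemannZeta s := by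
  have hs0 : s ≠ 0 := by rintro rfl; simp at h0
  have hs1 : s ≠ 1 := by rintro rfl; simp at h1
  have h1' : 0 < (1 - s).re := by simp; exact h1
  have hs1' : 1 - s ≠ 1 := by intro h; apply hs0; linear_combination -h
  rw [← order_completed h1' hs1', ← order_completed h0 hs1]
  rw [← order_refl 1 (analyticAt_completed hs0 hs1)]
  congr 1
  ext z
  exact (completedRiemannZeta_one_sub z).symm

/-- `mult(conj ρ) = mult ρ`. -/
theorem order_zeta_conj {s : ℂ} (hs1 : s ≠ 1) :
    analyticOrderAt riemannZeta (conj s) = analyticOrderAt riemannZeta s := by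
  rw [← order_conj (analyticAt_zeta hs1)]
  congr 1
  ext z
  rw [riemannZeta_conj, Complex.conj_conj]

/-- `mult(1 - conj ρ) = mult ρ`. -/
theorem order_symm {s : ℂ} (h0 : 0 < s.re) (h1 : s.re < 1) :
    analyticOrderAt riemannZeta (1 - conj s) = analyticOrderAt riemannZeta s := by
  have hs1 : s ≠ 1 := by rintro rfl; simp at h1
  rw [order_one_sub (by simpa using h0) (by simpa using h1), order_zeta_conj hs1]

theorem orderNat_symm {s : ℂ} (h0 : 0 < s.re) (h1 : s.re < 1) :
    analyticOrderNatAt riemannZeta (1 - conj s) = analyticOrderNatAt riemannZeta s := by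
  unfold analyticOrderNatAt; rw [order_symm h0 h1]

theorem orderNat_zeta_conj {s : ℂ} (hs1 : s ≠ 1) :
    analyticOrderNatAt riemannZeta (conj s) = analyticOrderNatAt riemannZeta s := by
  unfold analyticOrderNatAt; rw [order_zeta_conj hs1]

theorem orderNat_completed {s : ℂ} (hs : 0 < s.re) (hs1 : s ≠ 1) :
    analyticOrderNatAt completedRiemannZeta s = analyticOrderNatAt riemannZeta s := by
  unfold analyticOrderNatAt; rw [order_completed hs hs1]

/-- the multiplicity is positive exactly at zeros -/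
theorem orderNat_zeta_ne_zero_iff {s : ℂ} (hs1 : s ≠ 1) :
    analyticOrderNatAt riemannZeta s ≠ 0 ↔ riemannZeta s = 0 := by
  have h := order_zeta_ne_top hs1
  have h2 := (analyticAt_zeta hs1).analyticOrderAt_ne_zero
  rw [← Nat.cast_analyticOrderNatAt h] at h2
  rw [← h2]
  norm_cast

/-- if `ρ` in the open strip is a zero then so is `1 - conj ρ` -/
theorem zeta_symm_zero {s : ℂ} (h0 : 0 < s.re) (h1 : s.re < 1) (hs : riemannZeta s = 0) :
    riemannZeta (1 - conj s) = 0 := by
  have hs1 : s ≠ 1 := by rintro rfl; simp at h1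
  have h3 := (orderNat_zeta_ne_zero_iff hs1).mpr hs
  rw [← orderNat_symm h0 h1] at h3
  refine (orderNat_zeta_ne_zero_iff ?_).mp h3
  intro h
  have := congrArg Complex.re h
  simp at this
  linarith

end H53.MT
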