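import Mathlib

/-!
# Elementary growth of `ζ` in `Re s > 0`: `ζ(s) = s/(s-1) - s ∫_1^∞ {t} t^{-s-1} dt`
-/

open Complex Set MeasureTheory Filter Asymptotics Topology

namespace H53.MT

/-- fractional part on `(1, ∞)` -/
noncomputable def fr (t : ℝ) : ℂ := (Ioi (1 : ℝ)).indicator (fun t => ((Int.fract t : ℝ) : ℂ)) t

lemma norm_fr_le (t : ℝ) : ‖fr t‖ ≤ 1 := by
  unfold fr
  by_cases h : t ∈ Ioi (1 : ℝ)
  · rw [indicator_of_mem h, Complex.norm_real, Real.norm_of_nonneg (Int.fract_nonneg t)]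
    exact (Int.fract_lt_one t).le
  · rw [indicator_of_notMem h]; simp

lemma measurable_fr : Measurable fr := by
  unfold fr
  exact (Complex.measurable_ofReal.comp measurable_fract).indicator measurableSet_Ioi

lemma locInt_fr (s : Set ℝ) : LocallyIntegrableOn fr s := by
  apply LocallyIntegrable.locallyIntegrableOn
  have h1 : LocallyIntegrable (fun _ : ℝ => (1 : ℝ)) := locallyIntegrable_const 1
  exact h1.mono measurable_fr.aestronglyMeasurable (Eventually.of_forall fun t => by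
    simpa using norm_fr_le t)

/-- `∫_1^∞ {t} t^{-s-1} dt` as a Mellin transform. -/
noncomputable def M (s : ℂ) : ℂ := mellin fr (-s)

lemma fr_top : fr =O[atTop] (fun t : ℝ => t ^ (-(0 : ℝ))) := by
  refine IsBigO.of_bound 1 (Eventually.of_forall fun t => ?_)
  simpa using norm_fr_le t

lemma fr_bot (b : ℝ) : fr =O[𝓝[>] 0] (fun t : ℝ => t ^ (-b)) := by
  refine IsBigO.of_bound 1 ?_
  have : ∀ᶠ t : ℝ in 𝓝[>] (0 : ℝ), t < 1 := by
    exact nhdsWithin_le_nhds (eventually_lt_nhds zero_lt_one)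
  filter_upwards [this] with t ht
  have : fr t = 0 := by
    unfold fr
    exact indicator_of_notMem (by simp only [mem_Ioi, not_lt]; exact ht.le) _
  rw [this]; simp

lemma diffAt_M {s : ℂ} (hs : 0 < s.re) : DifferentiableAt ℂ M s := by
  have h : DifferentiableAt ℂ (mellin fr) (-s) :=
    mellin_differentiableAt_of_isBigO_rpow (locInt_fr _) fr_top (by simpa using hs)
      (fr_bot (-s.re - 1)) (by simp)
  have h2 : DifferentiableAt ℂ (fun s : ℂ => -s) s := by fun_prop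
  exact DifferentiableAt.comp (g := mellin fr) s h h2

lemma M_eq (s : ℂ) : M s = ∫ t in Ioi (1 : ℝ), ((Int.fract t : ℝ) : ℂ) * (t : ℂ) ^ (-(s + 1)) := by
  unfold M mellin
  have h1 : ∀ t : ℝ, (t : ℂ) ^ (-s - 1) • fr t =
      (Ioi (1 : ℝ)).indicator (fun t => ((Int.fract t : ℝ) : ℂ) * (t : ℂ) ^ (-(s + 1))) t := by
    intro t
    unfold fr
    by_cases h : t ∈ Ioi (1 : ℝ)
    · rw [indicator_of_mem h, indicator_of_mem h, smul_eq_mul, mul_comm]
      congr 2; ring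
    · rw [indicator_of_notMem h, indicator_of_notMem h, smul_zero]
  simp_rw [h1]
  rw [setIntegral_indicator measurableSet_Ioi]
  congr 2
  ext t; simp only [mem_inter_iff, mem_Ioi]
  constructor
  · rintro ⟨_, h⟩; exact h
  · intro h; exact ⟨by linarith, h⟩

lemma norm_M_le {s : ℂ} (hs : 0 < s.re) : ‖M s‖ ≤ 1 / s.re := by
  rw [M_eq]
  have hint : IntegrableOn (fun t : ℝ => t ^ (-(s.re + 1))) (Ioi 1) :=
    integrableOn_Ioi_rpow_of_lt (by linarith) one_pos
  have h := norm_integral_le_of_norm_le hint (f := fun t : ℝ => ((Int.fract t : ℝ) : ℂ) *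
    (t : ℂ) ^ (-(s + 1))) (by
      refine (ae_restrict_mem measurableSet_Ioi).mono fun t ht => ?_
      have ht0 : (0 : ℝ) < t := lt_trans one_pos ht
      rw [norm_mul, Complex.norm_cpow_eq_rpow_re_of_pos ht0, Complex.norm_real,
        Real.norm_of_nonneg (Int.fract_nonneg t)]
      have : (-(s + 1)).re = -(s.re + 1) := by simp
      rw [this]
      exact mul_le_of_le_one_left (Real.rpow_nonneg ht0.le _) (Int.fract_lt_one t).le)
  rw [integral_Ioi_rpow_of_lt (by linarith) one_pos] at h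
  refine h.trans (le_of_eq ?_)
  rw [Real.one_rpow, show -(s.re + 1) + 1 = -s.re by ring, neg_div_neg_eq]

theorem zeta_eq {s : ℂ} (hs : 1 < s.re) : riemannZeta s = s / (s - 1) - s * M s := by
  have hs1 : s ≠ 1 := by rintro rfl; simp at hs
  have hs1' : s - 1 ≠ 0 := sub_ne_zero.mpr hs1
  have h1 := LSeries_eq_mul_integral_of_nonneg (fun _ => (1 : ℝ)) (r := 1) zero_le_one hs
    (by
      refine IsBigO.of_bound 1 (Eventually.of_forall fun n => ?_)
      simp) (fun _ => zero_le_one)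
  have h2 : LSeries (fun n : ℕ => (((1 : ℝ)) : ℂ)) s = riemannZeta s := by
    have := LSeries_one_eq_riemannZeta hs
    rw [← this]
    congr 1
  rw [h2] at h1
  rw [h1]
  have h3 : ∀ t : ℝ, t ∈ Ioi (1 : ℝ) → (∑ k ∈ Finset.Icc 1 ⌊t⌋₊, (((1 : ℝ)) : ℂ)) * (t : ℂ) ^ (-(s + 1))
      = (t : ℂ) ^ (-s) - ((Int.fract t : ℝ) : ℂ) * (t : ℂ) ^ (-(s + 1)) := by
    intro t ht
    have ht0 : (0 : ℝ) < t := lt_trans one_pos ht
    have e1 : (t : ℂ) ^ (-s) = (t : ℂ) * (t : ℂ) ^ (-(s + 1)) := by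
      rw [show -s = 1 + (-(s + 1)) by ring, Complex.cpow_add _ _ (by exact_mod_cast ht0.ne'),
        Complex.cpow_one]
    have e2 : (∑ k ∈ Finset.Icc 1 ⌊t⌋₊, (((1 : ℝ)) : ℂ)) = ((⌊t⌋₊ : ℝ) : ℂ) := by simp
    have e3 : ((⌊t⌋₊ : ℝ)) = t - Int.fract t := by
      rw [natCast_floor_eq_intCast_floor ht0.le]
      have := Int.floor_add_fract t
      linarith
    rw [e1, e2, e3]
    push_cast
    ring
  rw [setIntegral_congr_fun measurableSet_Ioi h3]
  have i1 : IntegrableOn (fun t : ℝ => (t : ℂ) ^ (-s)) (Ioi 1) :=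
    integrableOn_Ioi_cpow_of_lt (by simpa using hs) one_pos
  have i2 : IntegrableOn (fun t : ℝ => ((Int.fract t : ℝ) : ℂ) * (t : ℂ) ^ (-(s + 1))) (Ioi 1) := by
    have hint : IntegrableOn (fun t : ℝ => (t : ℂ) ^ (-(s + 1))) (Ioi 1) :=
      integrableOn_Ioi_cpow_of_lt (by simp; linarith) one_pos
    refine Integrable.bdd_mul (c := 1) hint ?_ ?_
    · exact (Complex.measurable_ofReal.comp measurable_fract).aestronglyMeasurable
    · refine Eventually.of_forall fun t => ?_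
      rw [Complex.norm_real, Real.norm_of_nonneg (Int.fract_nonneg t)]
      exact (Int.fract_lt_one t).le
  rw [integral_sub i1 i2, ← M_eq, integral_Ioi_cpow_of_lt (by simpa using hs) one_pos]
  have h4 : -s + 1 ≠ 0 := by
    intro h; apply hs1'; linear_combination -h
  simp only [Complex.ofReal_one, Complex.one_cpow]
  field_simp
  ring

/-- Analytic continuation of the formula. -/
theorem zeta1_eq {s : ℂ} (hs : 0 < s.re) : riemannZeta₁ s = s - s * (s - 1) * M s := by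
  have hU : IsOpen {s : ℂ | 0 < s.re} := isOpen_lt continuous_const Complex.continuous_re
  have hf : AnalyticOnNhd ℂ riemannZeta₁ {s : ℂ | 0 < s.re} :=
    differentiable_riemannZeta₁.differentiableOn.analyticOnNhd hU
  have hg : AnalyticOnNhd ℂ (fun s : ℂ => s - s * (s - 1) * M s) {s : ℂ | 0 < s.re} := by
    apply DifferentiableOn.analyticOnNhd _ hU
    intro z hz
    have := diffAt_M hz
    exact (by fun_prop : DifferentiableAt ℂ (fun s : ℂ => s - s * (s - 1) * M s) z).differentiableWithinAt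
  have hc : IsPreconnected {s : ℂ | 0 < s.re} := (convex_halfSpace_re_gt 0).isPreconnected
  have h2 : (2 : ℂ) ∈ {s : ℂ | 0 < s.re} := by simp
  refine hf.eqOn_of_preconnected_of_eventuallyEq hg hc h2 ?_ hs
  have hV : IsOpen {s : ℂ | 1 < s.re} := isOpen_lt continuous_const Complex.continuous_re
  filter_upwards [hV.mem_nhds (by simp : (2 : ℂ) ∈ {s : ℂ | 1 < s.re})] with z hz
  have hz1 : z ≠ 1 := by rintro rfl; simp at hz
  have hz1' : z - 1 ≠ 0 := sub_ne_zero.mpr hz1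
  have e1 := zeta_eq hz
  have e2 := riemannZeta_eq_inv_sub_mul hz1
  rw [e2] at e1
  field_simp at e1
  rw [e1]
  ring

theorem norm_zeta1_le {s : ℂ} (hs : 0 < s.re) :
    ‖riemannZeta₁ s‖ ≤ ‖s‖ + ‖s‖ * ‖s - 1‖ / s.re := by
  rw [zeta1_eq hs]
  calc ‖s - s * (s - 1) * M s‖ ≤ ‖s‖ + ‖s * (s - 1) * M s‖ := norm_sub_le _ _
    _ = ‖s‖ + ‖s‖ * ‖s - 1‖ * ‖M s‖ := by rw [norm_mul, norm_mul]
    _ ≤ ‖s‖ + ‖s‖ * ‖s - 1‖ * (1 / s.re) := by
        gcongr
        exact norm_M_le hs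
    _ = _ := by ring

theorem norm_zeta_le {s : ℂ} (hs : 0 < s.re) (hs1 : s ≠ 1) :
    ‖riemannZeta s‖ ≤ ‖s‖ / ‖s - 1‖ + ‖s‖ / s.re := by
  have h0 : 0 < ‖s - 1‖ := norm_pos_iff.mpr (sub_ne_zero.mpr hs1)
  rw [riemannZeta_eq_inv_sub_mul hs1, norm_mul, norm_inv]
  have := norm_zeta1_le hs
  calc ‖s - 1‖⁻¹ * ‖riemannZeta₁ s‖ ≤ ‖s - 1‖⁻¹ * (‖s‖ + ‖s‖ * ‖s - 1‖ / s.re) := by gcongr
    _ = _ := by field_simp

/-- `|ζ(s)| ≤ 11 |s|` for `Re s ≥ 1/10`, `|s - 1| ≥ 1`. -/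
theorem norm_zeta_le' {s : ℂ} (hs : 1 / 10 ≤ s.re) (hs1 : 1 ≤ ‖s - 1‖) :
    ‖riemannZeta s‖ ≤ 11 * ‖s‖ := by
  have hne : s ≠ 1 := by rintro rfl; norm_num at hs1
  have h := norm_zeta_le (s := s) (by linarith) hne
  have h1 : ‖s‖ / ‖s - 1‖ ≤ ‖s‖ := div_le_self (norm_nonneg _) hs1
  have h2 : ‖s‖ / s.re ≤ 10 * ‖s‖ := by
    rw [div_le_iff₀ (by linarith)]
    nlinarith [norm_nonneg s]
  linarith

end H53.MT
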