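import Mathlib

/-!
# Dividing out finitely many zeros of an entire function; Jensen's counting inequality
-/

open Complex Set Filter Topology Metric

namespace H53.MT

lemma order_ne_top {f : ℂ → ℂ} (hf : Differentiable ℂ f) {w : ℂ} (hw : f w ≠ 0) (z : ℂ) :
    analyticOrderAt f z ≠ ⊤ := by
  have ha : AnalyticOnNhd ℂ f univ := hf.differentiableOn.analyticOnNhd isOpen_univ
  intro h
  rw [analyticOrderAt_eq_top] at h
  have := ha.eqOn_zero_of_preconnected_of_eventuallyEq_zero isPreconnected_univ (mem_univ z) h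
  exact hw (this (mem_univ w))

lemma divide_one {f : ℂ → ℂ} (hf : Differentiable ℂ f) (a : ℂ) (hfa : analyticOrderAt f a ≠ ⊤) :
    ∃ g : ℂ → ℂ, Differentiable ℂ g ∧ (∀ z, f z = (z - a) ^ analyticOrderNatAt f a * g z) ∧
      g a ≠ 0 := by
  obtain ⟨g0, hg0, hg0a, he⟩ := (hf.analyticAt a).analyticOrderAt_ne_top.mp hfa
  set n := analyticOrderNatAt f a with hn
  classical
  let g : ℂ → ℂ := fun z => if z = a then g0 a else f z / (z - a) ^ n
  have hgne : ∀ z, z ≠ a → g z = f z / (z - a) ^ n := fun z hz => by simp [g, hz]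
  have hga : g a = g0 a := by simp [g]
  refine ⟨g, ?_, ?_, ?_⟩
  · intro z
    by_cases hz : z = a
    · subst hz
      have : g =ᶠ[𝓝 z] g0 := by
        filter_upwards [he] with w hw
        by_cases hwz : w = z
        · rw [hwz, hga]
        · rw [hgne w hwz, hw, smul_eq_mul, mul_div_cancel_left₀]
          exact pow_ne_zero _ (sub_ne_zero.mpr hwz)
      exact hg0.differentiableAt.congr_of_eventuallyEq this
    · have : g =ᶠ[𝓝 z] fun w => f w / (w - a) ^ n := by
        filter_upwards [isOpen_ne.mem_nhds hz] with w hw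
        exact hgne w hw
      have h2 : DifferentiableAt ℂ (fun w => f w / (w - a) ^ n) z := by
        apply DifferentiableAt.div (hf z) (by fun_prop)
        exact pow_ne_zero _ (sub_ne_zero.mpr hz)
      exact h2.congr_of_eventuallyEq this
  · intro z
    by_cases hz : z = a
    · subst hz
      have h3 := he.self_of_nhds
      rw [hga]
      exact h3
    · rw [hgne z hz, mul_div_cancel₀]
      exact pow_ne_zero _ (sub_ne_zero.mpr hz)
  · rw [hga]; exact hg0a

/-- Division by a finite set of zeros. -/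
theorem divide {f : ℂ → ℂ} (hf : Differentiable ℂ f) {w : ℂ} (hw : f w ≠ 0) (Z : Finset ℂ) :
    ∃ g : ℂ → ℂ, Differentiable ℂ g ∧
      (∀ z, f z = (∏ ρ ∈ Z, (z - ρ) ^ analyticOrderNatAt f ρ) * g z) ∧ ∀ ρ ∈ Z, g ρ ≠ 0 := by
  classical
  induction Z using Finset.induction_on with
  | empty => exact ⟨f, hf, fun z => by simp, fun ρ h => by simp at h⟩
  | insert a Z ha ih =>
    obtain ⟨g, hg, hfg, hgZ⟩ := ih
    -- order of g at a is the order of f at a
    have hP : AnalyticAt ℂ (fun z => ∏ ρ ∈ Z, (z - ρ) ^ analyticOrderNatAt f ρ) a := by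
      have : Differentiable ℂ (fun z => ∏ ρ ∈ Z, (z - ρ) ^ analyticOrderNatAt f ρ) := by fun_prop
      exact this.analyticAt a
    have hPa : (∏ ρ ∈ Z, (a - ρ) ^ analyticOrderNatAt f ρ) ≠ 0 := by
      rw [Finset.prod_ne_zero_iff]
      intro ρ hρ
      exact pow_ne_zero _ (sub_ne_zero.mpr (fun h => ha (h ▸ hρ)))
    have hord : analyticOrderAt f a = analyticOrderAt g a := by
      have e : f = (fun z => ∏ ρ ∈ Z, (z - ρ) ^ analyticOrderNatAt f ρ) • g := by
        ext z; simpa using hfg z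
      have h1 : analyticOrderAt ((fun z => ∏ ρ ∈ Z, (z - ρ) ^ analyticOrderNatAt f ρ) • g) a =
          analyticOrderAt (fun z => ∏ ρ ∈ Z, (z - ρ) ^ analyticOrderNatAt f ρ) a +
          analyticOrderAt g a := analyticOrderAt_smul hP (hg.analyticAt a)
      rw [← e, hP.analyticOrderAt_eq_zero.mpr hPa, zero_add] at h1
      exact h1
    have hgtop : analyticOrderAt g a ≠ ⊤ := hord ▸ order_ne_top hf hw a
    obtain ⟨h, hh, hgh, hha⟩ := divide_one hg a hgtop
    have hnat : analyticOrderNatAt g a = analyticOrderNatAt f a := by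
      unfold analyticOrderNatAt; rw [hord]
    refine ⟨h, hh, ?_, ?_⟩
    · intro z
      rw [Finset.prod_insert ha, hfg z, hgh z, hnat]
      ring
    · intro ρ hρ
      rcases Finset.mem_insert.mp hρ with rfl | hρ
      · exact hha
      · intro h0
        apply hgZ ρ hρ
        rw [hgh ρ, h0, mul_zero]

/-- Jensen's counting inequality. -/
theorem jensen_count {f : ℂ → ℂ} (hf : Differentiable ℂ f) {c : ℂ} (hc : f c ≠ 0) {r R B : ℝ}
    (hr : 0 < r) (hrR : r < R) (hB : ∀ z ∈ sphere c R, ‖f z‖ ≤ B) (Z : Finset ℂ)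
    (hZ : ∀ ρ ∈ Z, ‖ρ - c‖ ≤ r) :
    (∑ ρ ∈ Z, (analyticOrderNatAt f ρ : ℝ)) * Real.log (R / r) ≤ Real.log (B / ‖f c‖) := by
  classical
  obtain ⟨g, hg, hfg, -⟩ := divide hf hc Z
  have hR : 0 < R := hr.trans hrR
  set m : ℂ → ℕ := fun ρ => analyticOrderNatAt f ρ with hm
  set F : ℂ → ℂ := fun z => (∏ ρ ∈ Z, (((R : ℂ) ^ 2 - (starRingEnd ℂ) (ρ - c) * (z - c)) / R) ^ m ρ) * g z with hF
  have hFd : Differentiable ℂ F := by
    rw [hF]; fun_prop
  -- on the sphere
  have hsph : ∀ z ∈ sphere c R, ‖F z‖ ≤ B := by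
    intro z hz
    have hzR : ‖z - c‖ = R := by simpa [dist_eq_norm] using hz
    have e : ‖F z‖ = ‖f z‖ := by
      rw [hfg z, hF]
      simp only [norm_mul, norm_prod, norm_pow]
      congr 1
      refine Finset.prod_congr rfl fun ρ _ => ?_
      congr 1
      have h1 : (R : ℂ) ^ 2 = (z - c) * (starRingEnd ℂ) (z - c) := by
        rw [Complex.mul_conj, Complex.normSq_eq_norm_sq, hzR]; push_cast; ring
      have h2 : (R : ℂ) ^ 2 - (starRingEnd ℂ) (ρ - c) * (z - c) = (z - c) * (starRingEnd ℂ) (z - ρ) := by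
        rw [h1]
        simp only [map_sub]
        ring
      rw [h2, norm_div, norm_mul, RCLike.norm_conj, hzR, Complex.norm_real, Real.norm_of_nonneg hR.le,
        mul_div_cancel_left₀ _ hR.ne']
    rw [e]; exact hB z hz
  have hFc : ‖F c‖ ≤ B := by
    refine Complex.norm_le_of_forall_mem_frontier_norm_le (U := ball c R) isBounded_ball
      hFd.diffContOnCl ?_ (subset_closure (mem_ball_self hR))
    intro z hz
    rw [frontier_ball c hR.ne'] at hz
    exact hsph z hz
  have hFc' : ‖F c‖ = R ^ (∑ ρ ∈ Z, m ρ) * ‖g c‖ := by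
    rw [hF]
    simp only [sub_self, mul_zero, sub_zero, norm_mul, norm_prod, norm_pow, norm_div]
    rw [Complex.norm_real, Real.norm_of_nonneg hR.le, ← Finset.prod_pow_eq_pow_sum]
    congr 1
    refine Finset.prod_congr rfl fun ρ _ => ?_
    congr 1
    field_simp
  have hfc' : ‖f c‖ ≤ r ^ (∑ ρ ∈ Z, m ρ) * ‖g c‖ := by
    rw [hfg c, norm_mul, norm_prod, ← Finset.prod_pow_eq_pow_sum]
    gcongr with ρ hρ
    rw [norm_pow]
    gcongr
    rw [norm_sub_rev]; exact hZ ρ hρ
  have hfc0 : 0 < ‖f c‖ := norm_pos_iff.mpr hc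
  have hgc0 : 0 < ‖g c‖ := by
    by_contra h
    have : ‖g c‖ = 0 := le_antisymm (not_lt.mp h) (norm_nonneg _)
    rw [this, mul_zero] at hfc'
    linarith
  set N := ∑ ρ ∈ Z, m ρ with hN
  have hN' : (∑ ρ ∈ Z, (analyticOrderNatAt f ρ : ℝ)) = (N : ℝ) := by
    rw [hN]; push_cast; rfl
  rw [hN']
  have hfin : (R / r) ^ N ≤ B / ‖f c‖ := by
    rw [le_div_iff₀ hfc0, div_pow, div_mul_eq_mul_div, div_le_iff₀ (pow_pos hr _)]
    calc R ^ N * ‖f c‖ ≤ R ^ N * (r ^ N * ‖g c‖) := by gcongr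
      _ = (R ^ N * ‖g c‖) * r ^ N := by ring
      _ ≤ B * r ^ N := by
        rw [← hFc']; gcongr
  have := Real.log_le_log (by positivity) hfin
  rwa [Real.log_pow] at this

end H53.MT
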